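import Pool.Agent.Helper6.LVarWein

set_option autoImplicit false

namespace Pool.Agent.Results.MP_2301b5_al.MinimalInfiniteRank

open Pool.Agent.Helper6.LVar

/-- **A variety of `ℓ`-groups that is minimal without finite rank.**
There is a set `E` of identities such that the variety of `ℓ`-groups defined by `E` is not of
finite rank, while every variety properly contained in it is of finite rank.
(In the proof, `E` is the set of all identities of the lexicographically ordered Heisenberg
group over the integers.) -/
theorem result : ∃ E : Set (LTerm × LTerm), ¬ FiniteRank E ∧
    ∀ E' : Set (LTerm × LTerm), SubvarietyOf E' E → ¬ SubvarietyOf E E' → FiniteRank E' :=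
  ⟨IdHeis, not_finiteRank_heis, fun E' h1 h2 => finiteRank_of_proper E' h1 h2⟩

end Pool.Agent.Results.MP_2301b5_al.MinimalInfiniteRank
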